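import Pool.Agent.Helper50.CT.Goals

/-!
PROJECT CT, packet PACK: the packing inequality from QC, SLIDE, LIFT, SHRINK, PROJ.
-/

set_option autoImplicit false

namespace Pool.Agent.Helper8.CT

open Pool.Agent.Helper50.CT

/-- growth comparison: if `A^i c ≤ C B^i` for all `i` with `c > 0`, `B > 0`, `A ≥ 0` then `A ≤ B` -/
theorem le_of_pow_le {A B c C : ℝ} (hB : 0 < B) (hc : 0 < c)
    (h : ∀ i : ℕ, A ^ i * c ≤ C * B ^ i) : A ≤ B := by
  by_contra hlt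
  push Not at hlt
  have hq : 1 < A / B := (one_lt_div hB).2 hlt
  obtain ⟨i, hi⟩ := pow_unbounded_of_one_lt (C / c) hq
  have h1 := h i
  rw [div_pow, div_lt_div_iff₀ hc (pow_pos hB i)] at hi
  linarith

/-- one step of the iteration -/
theorem step (hSLIDE : StmtSLIDE) (hLIFT : StmtLIFT) (hSHRINK : StmtSHRINK) (hPROJ : StmtPROJ)
    {n : ℕ} {κ : ℝ} {X T : Type} [MetricSpace X] [MetricSpace T]
    [AddAction (Fin n → ℤ) X] {π : X → T} (hκ : 0 < κ) (hGX : Geod X) (hCX : CurvGE κ X)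
    (hGT : Geod T) (hCT : CurvGE κ T) (hcov : Cov n X T π) {o x : X} {a ρ : ℝ} {J : ℕ}
    (ha : dist (π o) (π x) = a) (hka : κ * a ≤ 1) (hρ : 0 < ρ) (h16 : 16 * ρ ≤ a)
    (hJ : 3 * ((J : ℝ) - 1) * ρ ≤ a / 4) {σ : ℝ} (hσ : 0 < σ) (hσρ : σ ≤ ρ)
    (hfree : ∀ (y : X) (k : Fin n → ℤ), k ≠ 0 → σ ≤ dist y (k +ᵥ y))
    (S : Finset T) (hS : ∀ z ∈ S, dist z (π x) ≤ ρ) (hsep : Sep σ S) :
    ∃ S' : Finset T, (∀ z ∈ S', dist z (π x) ≤ ρ) ∧ Sep (ρ / (16 * a) * σ) S' ∧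
      (Sh n x (a / 2)).ncard * J * S.card ≤ (Sh n x (3 * ρ)).ncard * S'.card := by
  have ha0 : 0 < a := by linarith
  obtain ⟨S1, hb1, hs1, hc1⟩ := hSLIDE κ hκ T hGT hCT (π o) (π x) a ρ σ J S ha hka hρ h16 hσ hσρ
    hJ hS hsep
  obtain ⟨S2, hb2, hs2, hc2⟩ := hLIFT n X T π hcov x a (3 / 8 * σ) S1 (by positivity)
    (fun y k hk => by have := hfree y k hk; linarith) hb1 hs1
  obtain ⟨S3, hb3, hs3, hc3⟩ := hSHRINK κ hκ X hGX hCX x a ρ (3 / 8 * σ) S2 hρ (by linarith) hka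
    (by positivity) hb2 hs2
  have hle1 : ρ / (2 * a) ≤ 1 := by
    rw [div_le_one (by positivity)]; linarith
  have hτ : ρ / (2 * a) * (3 / 8 * σ) ≤ ρ := by
    calc ρ / (2 * a) * (3 / 8 * σ) ≤ 1 * (3 / 8 * σ) :=
          mul_le_mul_of_nonneg_right hle1 (by positivity)
      _ ≤ ρ := by linarith
  obtain ⟨S4, hb4, hs4, hc4⟩ := hPROJ n X T π hcov x ρ (ρ / (2 * a) * (3 / 8 * σ)) S3
    (by positivity) hτ hb3 hs3
  refine ⟨S4, hb4, ?_, ?_⟩
  · have e : ρ / (2 * a) * (3 / 8 * σ) / 3 = ρ / (16 * a) * σ := by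
      field_simp
      ring
    rwa [e] at hs4
  · calc (Sh n x (a / 2)).ncard * J * S.card = (Sh n x (a / 2)).ncard * (J * S.card) := by ring
      _ = S3.card := by rw [hc1, hc2, hc3]
      _ ≤ _ := hc4

/-- PACKET PACK -/
theorem goalPACK (hQC : Pool.Agent.Helper50.CT.StmtQC) (hSLIDE : Pool.Agent.Helper50.CT.StmtSLIDE)
    (hLIFT : Pool.Agent.Helper50.CT.StmtLIFT) (hSHRINK : Pool.Agent.Helper50.CT.StmtSHRINK)
    (hPROJ : Pool.Agent.Helper50.CT.StmtPROJ) : Pool.Agent.Helper50.CT.StmtPACK := by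
  intro n κ X T _ _ _ π hκ hGX hCX hcov hbox o x a ρ J ha hka hρ h16 hJ
  obtain ⟨hGT, hCT⟩ := hQC n κ X T π hκ hGX hCX hcov
  have ha0 : 0 < a := by linarith
  obtain ⟨σf, hσf, hfree⟩ := hcov.free
  obtain ⟨C, hC⟩ := hbox
  set σ0 : ℝ := min (min ρ 1) σf with hσ0def
  have hσ0 : 0 < σ0 := lt_min (lt_min hρ one_pos) hσf
  have hσ0ρ : σ0 ≤ ρ := (min_le_left _ _).trans (min_le_left _ _)
  have hσ01 : σ0 ≤ 1 := (min_le_left _ _).trans (min_le_right _ _)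
  have hσ0f : σ0 ≤ σf := min_le_right _ _
  set θ : ℝ := ρ / (16 * a) with hθdef
  have hθ : 0 < θ := by positivity
  have hθ1 : θ ≤ 1 := by
    rw [hθdef, div_le_one (by positivity)]; linarith
  set N := (Sh n x (a / 2)).ncard with hN
  set N' := (Sh n x (3 * ρ)).ncard with hN'
  have hN'pos : 0 < N' := by
    have hfin : (Sh n x (3 * ρ)).Finite := hcov.fin x x (3 * ρ)
    rw [hN', Set.ncard_pos hfin]
    refine ⟨0, ?_⟩
    show dist x ((0 : Fin n → ℤ) +ᵥ x) ≤ 3 * ρ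
    rw [zero_vadd, dist_self]
    positivity
  have hpow : ∀ i : ℕ, 0 < θ ^ i * σ0 ∧ θ ^ i * σ0 ≤ σ0 := by
    intro i
    refine ⟨by positivity, ?_⟩
    have : θ ^ i ≤ 1 := pow_le_one₀ hθ.le hθ1
    calc θ ^ i * σ0 ≤ 1 * σ0 := mul_le_mul_of_nonneg_right this hσ0.le
      _ = σ0 := one_mul _
  have key : ∀ i : ℕ, ∃ S : Finset T, (∀ z ∈ S, dist z (π x) ≤ ρ) ∧ Sep (θ ^ i * σ0) S ∧
      (N * J) ^ i ≤ N' ^ i * S.card := by
    intro i
    induction i with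
    | zero =>
      refine ⟨{π x}, ?_, ?_, ?_⟩
      · intro z hz
        rw [Finset.mem_singleton] at hz
        rw [hz, dist_self]; exact hρ.le
      · intro y hy z hz hyz
        rw [Finset.mem_singleton] at hy hz
        exact absurd (hy.trans hz.symm) hyz
      · simp
    | succ i ih =>
      obtain ⟨S, hS, hsep, hcard⟩ := ih
      obtain ⟨h1, h2⟩ := hpow i
      obtain ⟨S', hS', hsep', hcard'⟩ := step hSLIDE hLIFT hSHRINK hPROJ hκ hGX hCX hGT hCT hcov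
        ha hka hρ h16 hJ h1 (h2.trans hσ0ρ)
        (fun y k hk => (h2.trans hσ0f).trans (hfree y k hk)) S hS hsep
      refine ⟨S', hS', ?_, ?_⟩
      · rw [pow_succ', mul_assoc]
        exact hsep'
      · calc (N * J) ^ (i + 1) = (N * J) * (N * J) ^ i := pow_succ' _ _
          _ ≤ (N * J) * (N' ^ i * S.card) := Nat.mul_le_mul_left _ hcard
          _ = N' ^ i * (N * J * S.card) := by ring
          _ ≤ N' ^ i * (N' * S'.card) := Nat.mul_le_mul_left _ hcard'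
          _ = N' ^ (i + 1) * S'.card := by ring
  have hmain : (N : ℝ) * J * θ ^ n ≤ N' := by
    refine le_of_pow_le (c := σ0 ^ n) (C := C) (by exact_mod_cast hN'pos) (by positivity) ?_
    intro i
    obtain ⟨S, _, hsep, hcard⟩ := key i
    obtain ⟨h1, h2⟩ := hpow i
    have hb := hC (θ ^ i * σ0) h1 (h2.trans hσ01) S hsep
    have hcard' : ((N : ℝ) * J) ^ i ≤ (N' : ℝ) ^ i * S.card := by exact_mod_cast hcard
    have e1 : ((N : ℝ) * J * θ ^ n) ^ i * σ0 ^ n = ((N : ℝ) * J) ^ i * (θ ^ i * σ0) ^ n := by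
      rw [mul_pow ((N : ℝ) * J), mul_pow (θ ^ i), ← pow_mul, ← pow_mul, mul_comm n i]
      ring
    rw [e1]
    calc ((N : ℝ) * J) ^ i * (θ ^ i * σ0) ^ n
        ≤ ((N' : ℝ) ^ i * S.card) * (θ ^ i * σ0) ^ n :=
          mul_le_mul_of_nonneg_right hcard' (by positivity)
      _ = (N' : ℝ) ^ i * (S.card * (θ ^ i * σ0) ^ n) := by ring
      _ ≤ (N' : ℝ) ^ i * C := mul_le_mul_of_nonneg_left hb (by positivity)
      _ = C * (N' : ℝ) ^ i := mul_comm _ _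
  have hinv : θ ^ n * (16 * a / ρ) ^ n = 1 := by
    rw [← mul_pow, hθdef]
    have : ρ / (16 * a) * (16 * a / ρ) = 1 := by
      field_simp
    rw [this, one_pow]
  calc (N : ℝ) * J = (N : ℝ) * J * (θ ^ n * (16 * a / ρ) ^ n) := by rw [hinv, mul_one]
    _ = ((N : ℝ) * J * θ ^ n) * (16 * a / ρ) ^ n := by ring
    _ ≤ N' * (16 * a / ρ) ^ n := mul_le_mul_of_nonneg_right hmain (by positivity)

end Pool.Agent.Helper8.CT
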